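import Pool.Agent.Lib.MP_438f30_pr.BF.Tent

/-! The bands of the tent white noise representation. -/

namespace Pool.Agent.GL.BF

open MeasureTheory Metric Real Set Pool.Agent.Lib.MP_a0a493_pr
open scoped InnerProductSpace

variable {d : ℕ} {f g ρ : E d → ℝ} {z : E d} {B R : ℝ}

theorem At_small (h : Nice f z B R) (s : ℝ) (u : E d) : |At f (s, u)| ≤ cT d * B * vb d s := by
  rw [At, abs_mul, abs_of_pos (cT_pos d), mul_assoc]
  refine mul_le_mul_of_nonneg_left ?_ (cT_pos d).le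
  rw [vb, ← integral_bi (exp_pos s) u, ← integral_const_mul]
  refine norm_integral_le_of_norm_le (f := fun y => f y * tk s y u)
    ((integrable_bi _ u).const_mul B) (Filter.Eventually.of_forall fun y => ?_)
  rw [Real.norm_eq_abs, abs_mul, abs_of_nonneg (tk_nonneg _ _ _), bi_comm]
  exact mul_le_mul (h.bd y) (tk_le_bi _ _ _) (tk_nonneg _ _ _) h.nonneg

theorem At_bd (h : Nice f z B R) (s : ℝ) (u : E d) :
    |At f (s, u)| ≤ cT d * (B * (V1 d * R ^ d)) := by
  rw [At, abs_mul, abs_of_pos (cT_pos d)]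
  refine mul_le_mul_of_nonneg_left (le_trans ?_ h.l1) (cT_pos d).le
  refine norm_integral_le_of_norm_le (f := fun y => f y * tk s y u)
    h.int.abs (Filter.Eventually.of_forall fun y => ?_)
  rw [Real.norm_eq_abs, abs_mul]
  exact mul_le_of_le_one_right (abs_nonneg _) (abs_tk _ _ _)

theorem At_sup (h : Nice f z B R) {s : ℝ} {u : E d} (hu : At f (s, u) ≠ 0) :
    dist z u < R + exp s := by
  by_contra hc
  refine hu ?_
  rw [At, integral_eq_zero_of_ae (Filter.Eventually.of_forall fun y => ?_), mul_zero]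
  by_cases hy : f y = 0
  · simp [hy]
  · have := h.sup y hy
    have := dist_triangle z y u
    simp [tk_zero (show exp s ≤ dist y u by linarith [not_lt.1 hc])]

theorem At_lip (h : Nice f z B R) (s : ℝ) (u u' : E d) :
    |At f (s, u) - At f (s, u')| ≤ cT d * (B * (V1 d * R ^ d)) * (exp (-s) * dist u u') := by
  rw [At, At, ← mul_sub, abs_mul, abs_of_pos (cT_pos d), mul_assoc,
    ← integral_sub (int_mul_tk h.int _ _) (int_mul_tk h.int _ _)]
  refine mul_le_mul_of_nonneg_left (le_trans ?_ (mul_le_mul_of_nonneg_right h.l1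
    (by positivity))) (cT_pos d).le
  rw [← integral_mul_const]
  refine norm_integral_le_of_norm_le (f := fun y => f y * tk s y u - f y * tk s y u')
    (h.int.abs.mul_const _) (Filter.Eventually.of_forall fun y => ?_)
  rw [Real.norm_eq_abs, ← mul_sub, abs_mul]
  refine mul_le_mul_of_nonneg_left ((tk_lip _ _ _ _ _).trans_eq ?_) (abs_nonneg _)
  rw [sub_sub_sub_cancel_right, dist_eq_norm]

theorem sl_two {M r : ℝ} {x y : E d} (mg : Measurable g) (hM : ∀ u, |g u| ≤ M) (hr : 0 < r)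
    (hs : ∀ u, g u ≠ 0 → dist x u < r ∨ dist y u < r) : Sl g (M ^ 2 * (2 * (V1 d * r ^ d))) := by
  have M0 : 0 ≤ M := (abs_nonneg _).trans (hM x)
  have i := ((integrable_bi r x).add (integrable_bi r y)).const_mul M
  have b : ∀ u, |g u| ≤ M * (bi r x u + bi r y u) := fun u => by
    have a1 := bi_nonneg r x u
    have a2 := bi_nonneg r y u
    by_cases h0 : g u = 0
    · rw [h0, abs_zero]; positivity
    · rcases hs u h0 with h | h <;> rw [bi_one h] <;> nlinarith [hM u]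
  have ig : Integrable g := i.mono' mg.aestronglyMeasurable (Filter.Eventually.of_forall b)
  refine ⟨M, hM, ig, ?_⟩
  rw [sq, mul_assoc]
  refine mul_le_mul_of_nonneg_left ((integral_mono ig.abs i b).trans_eq ?_) M0
  simp only [Pi.add_apply]
  rw [integral_const_mul, integral_add (integrable_bi r x) (integrable_bi r y), integral_bi hr,
    integral_bi hr, two_mul]

/-- restriction to a set of scales -/
noncomputable def cut (I : Set ℝ) (G : ℝ × E d → ℝ) (p : ℝ × E d) : ℝ :=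
  I.indicator 1 p.1 * G p

variable {I : Set ℝ} {G G' : ℝ × E d → ℝ}

theorem cut_mem {s : ℝ} (h : s ∈ I) (u : E d) : cut I G (s, u) = G (s, u) := by
  simp [cut, h]

theorem cut_not {s : ℝ} (h : s ∉ I) (u : E d) : cut I G (s, u) = 0 := by
  simp [cut, h]

theorem measurable_cut (hI : MeasurableSet I) (hG : Measurable G) : Measurable (cut I G) :=
  ((measurable_one.indicator hI).comp measurable_fst).mul hG

theorem cut_sub : cut I (fun p => G p - G' p) = fun p => cut I G p - cut I G' p := by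
  funext p; simp only [cut, mul_sub]

theorem rad_le {s : ℝ} (hR : 0 < R) (hs : 0 ≤ s) :
    V1 d * (R + exp s) ^ d ≤ vb d s * (R + 1) ^ d := by
  rw [vb, mul_assoc, ← mul_pow]
  have := one_le_exp hs
  exact mul_le_mul_of_nonneg_left (pow_le_pow_left₀ (by positivity) (by nlinarith) d)
    (V1_pos d).le

/-- a bound for slices above the scale `exp α` -/
theorem ok_hi (hI : MeasurableSet I) (mG : Measurable G) {α K : ℝ} (hα : 0 ≤ α) (hR : 0 < R)
    (h1 : ∀ s ∈ I, α < s) {x y : E d} {M : ℝ → ℝ} (hM : ∀ s u, |G (s, u)| ≤ M s)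
    (hK : ∀ s ∈ I, M s ^ 2 ≤ K * exp (α - s)) (K0 : 0 ≤ K)
    (hs : ∀ s u, G (s, u) ≠ 0 → dist x u < R + exp s ∨ dist y u < R + exp s) :
    Ok (cut I G) ∧ ‖vec (cut I G)‖ ^ 2 ≤ K * (2 * (R + 1) ^ d) := by
  rw [← zero_add (K * _)]
  refine ok_two (measurable_cut hI mG) (α := α) (fun s hs => ?_) fun s _ => ?_
  · simp only [cut_not fun h => (not_lt.2 hs) (h1 s h)]
    exact sl_zero (by simp)
  · have hv := vb_pos d s
    by_cases h : s ∈ I
    · simp only [cut_mem h]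
      refine (sl_two (mG.comp (measurable_prodMk_left)) (hM s) (by positivity) (hs s)).mono ?_
      have a := rad_le (d := d) hR (hα.trans (h1 s h).le)
      have := V1_pos d
      calc _ ≤ K * exp (α - s) * (2 * (vb d s * (R + 1) ^ d)) := by
            gcongr
            exact hK s h
        _ = _ := by ring
    · simp only [cut_not h]
      exact sl_zero (by positivity)

theorem ok_lo (hd : 1 ≤ d) (h : Nice f z B R) : Ok (cut (Iic 0) (At f)) ∧
    ‖vec (cut (Iic 0) (At f))‖ ^ 2 ≤ (cT d * B * V1 d) ^ 2 * (2 * (R + 1) ^ d) := by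
  rw [← add_zero (_ * _)]
  refine ok_two (measurable_cut measurableSet_Iic (measurable_At h.meas)) (α := 0)
    (fun s hs => ?_) fun s hs => ?_
  · have hv := vb_pos d s
    have hV := V1_pos d
    have hR := h.pos
    simp only [cut_mem (mem_Iic.2 hs)]
    refine (sl_two (x := z) (y := z) ((measurable_At h.meas).comp (measurable_prodMk_left))
      (At_small h s) (r := R + 1) (by positivity) fun u hu => Or.inl ((At_sup h hu).trans_le
        (by linarith [exp_le_one_iff.2 hs]))).mono ?_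
    have a : vb d s ≤ V1 d * exp (s - 0) := by
      rw [vb, sub_zero]
      exact mul_le_mul_of_nonneg_left (pow_le_of_le_one (exp_pos _).le (exp_le_one_iff.2 hs)
        (by omega)) hV.le
    calc _ = vb d s * ((cT d * B) ^ 2 * (2 * (V1 d * (R + 1) ^ d)) * vb d s) := by ring
      _ ≤ vb d s * ((cT d * B) ^ 2 * (2 * (V1 d * (R + 1) ^ d)) * (V1 d * exp (s - 0))) := by
          gcongr
      _ = _ := by ring
  · simp only [cut_not (show s ∉ Iic (0 : ℝ) from not_le.2 hs)]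
    exact sl_zero (by simp)

theorem mol_zero (ρ : E d → ℝ) (x u : E d) : mol ρ 0 x u = ρ (x - u) := by simp [mol]

theorem nice0 (h : Nice ρ 0 B R) (x : E d) : Nice (mol ρ 0 x) x B R := by
  simpa using nice_mol h 0 (x := x) (z := x) (δ := 0) (by simp)

theorem At_iso (L : E d ≃ₗᵢ[ℝ] E d) (hL : ∀ w, ρ (L w) = ρ w) (c c' x u : E d) (s : ℝ) :
    At (mol ρ 0 (L (x - c) + c')) (s, L (u - c) + c') = At (mol ρ 0 x) (s, u) := by
  unfold At
  congr 1
  rw [← integral_add_right_eq_self _ c', ← int_iso L c]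
  congr 1
  funext y
  simp only [mol_zero, tk, add_sub_add_right_eq_sub, ← map_sub, sub_sub_sub_cancel_right, hL]
  rw [← map_smul, tent_radial (L.norm_map _)]

theorem At_tr (ρ : E d → ℝ) (x u : E d) (s : ℝ) :
    At (mol ρ 0 x) (s, u) = At (mol ρ 0 0) (s, u - x) := by
  simpa using (At_iso (ρ := ρ) (.refl ℝ _) (fun _ => rfl) x 0 x u s).symm

theorem At_lip' (h : Nice ρ 0 B R) (s : ℝ) (x y u : E d) :
    |At (mol ρ 0 x) (s, u) - At (mol ρ 0 y) (s, u)| ≤
      cT d * (B * (V1 d * R ^ d)) * (exp (-s) * dist x y) := by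
  rw [At_tr ρ x, At_tr ρ y, ← dist_sub_left u x y]
  exact At_lip (nice0 h 0) _ _ _

/-- differences of translates above the scale `exp α` -/
theorem ok_dif (h : Nice ρ 0 B R) (hI : MeasurableSet I) {α : ℝ} (hα : 0 ≤ α)
    (h1 : ∀ s ∈ I, α < s) (x y : E d) :
    Ok (cut I fun p => At (mol ρ 0 x) p - At (mol ρ 0 y) p) ∧
      ‖vec (cut I fun p => At (mol ρ 0 x) p - At (mol ρ 0 y) p)‖ ^ 2 ≤
        (cT d * (B * (V1 d * R ^ d)) * (exp (-α) * dist x y)) ^ 2 * (2 * (R + 1) ^ d) := by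
  refine ok_hi hI ((measurable_At (nice0 h x).meas).sub (measurable_At (nice0 h y).meas)) hα h.pos
    h1 (x := x) (y := y) (fun s u => At_lip' h s x y u) (fun s hs => ?_) (sq_nonneg _)
    fun s u hu => ?_
  · have a : exp (-s) ^ 2 ≤ exp (-α) ^ 2 * exp (α - s) := by
      simp only [sq, ← exp_add]
      exact exp_le_exp.2 (by linarith [h1 s hs])
    calc _ = (cT d * (B * (V1 d * R ^ d)) * dist x y) ^ 2 * exp (-s) ^ 2 := by ring
      _ ≤ (cT d * (B * (V1 d * R ^ d)) * dist x y) ^ 2 * (exp (-α) ^ 2 * exp (α - s)) := by gcongr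
      _ = _ := by ring
  · by_cases h0 : At (mol ρ 0 x) (s, u) = 0
    · exact Or.inr (At_sup (nice0 h y) fun c => hu (sub_eq_zero.2 (h0.trans c.symm)))
    · exact Or.inl (At_sup (nice0 h x) h0)

/-- the dyadic sets of scales -/
def Ib : ℕ → Set ℝ
  | 0 => Iic 0
  | b + 1 => Ioc (b * log 2) ((b + 1) * log 2)

theorem meas_Ib : ∀ b, MeasurableSet (Ib b)
  | 0 => measurableSet_Iic
  | _ + 1 => measurableSet_Ioc

theorem Ib_le : ∀ {b : ℕ} {s : ℝ}, s ∈ Ib b → s ≤ b * log 2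
  | 0, _, h => by simpa [Ib] using h
  | _ + 1, _, h => by simpa using h.2

theorem Ib_disj {b b' : ℕ} (h : b < b') {s : ℝ} (h1 : s ∈ Ib b) : s ∉ Ib b' := by
  obtain ⟨c, rfl⟩ : ∃ c, b' = c + 1 := ⟨b' - 1, by omega⟩
  intro h2
  have a : (b : ℝ) ≤ c := by exact_mod_cast Nat.lt_succ_iff.1 h
  have := mul_le_mul_of_nonneg_right a (log_nonneg one_le_two)
  linarith [Ib_le h1, h2.1]

theorem sum_cut (N : ℕ) (G : ℝ × E d → ℝ) (p : ℝ × E d) :
    ∑ b ∈ Finset.range (N + 1), cut (Ib b) G p = cut (Iic (N * log 2)) G p := by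
  induction N with
  | zero => simp [Ib]
  | succ N ih =>
    rw [Finset.sum_range_succ, ih]
    obtain ⟨s, u⟩ := p
    have := log_pos one_lt_two
    push_cast
    by_cases a : s ≤ N * log 2
    · rw [cut_mem (mem_Iic.2 a), cut_not (fun h => not_lt.2 a h.1), cut_mem (mem_Iic.2 (by
        linarith)), add_zero]
    · rw [cut_not (mt mem_Iic.1 a), zero_add]
      by_cases c : s ≤ (N + 1) * log 2
      · rw [cut_mem (mem_Iic.2 c), cut_mem (I := Ib (N + 1)) ⟨not_le.1 a, c⟩]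
      · rw [cut_not (mt mem_Iic.1 c), cut_not (I := Ib (N + 1)) fun h => c h.2]

/-- the band vectors -/
noncomputable def av (ρ : E d → ℝ) (b : ℕ) (x : E d) : HH d := vec (cut (Ib b) (At (mol ρ 0 x)))

/-- the coarse remainder -/
noncomputable def cv (ρ : E d → ℝ) (N : ℕ) (x : E d) : HH d :=
  vec (cut (Ioi (N * log 2)) fun p => At (mol ρ 0 x) p - At (mol ρ 0 0) p)

theorem ok_av (hd : 1 ≤ d) (h : Nice ρ 0 B R) (b : ℕ) (x : E d) :
    Ok (cut (Ib b) (At (mol ρ 0 x))) ∧ ‖av ρ b x‖ ^ 2 ≤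
      ((cT d * B * V1 d) ^ 2 + (cT d * (B * (V1 d * R ^ d))) ^ 2 * 2) * (2 * (R + 1) ^ d) := by
  have hR := h.pos
  rcases b with _ | b
  · have := ok_lo hd (nice0 h x)
    refine ⟨this.1, this.2.trans ?_⟩
    gcongr
    exact le_add_of_nonneg_right (by positivity)
  · have := ok_hi (meas_Ib (b + 1)) (measurable_At (nice0 h x).meas) (jlog b) hR
      (fun s hs => hs.1) (x := x) (y := x) (At_bd (nice0 h x))
      (K := (cT d * (B * (V1 d * R ^ d))) ^ 2 * 2) (fun s hs => ?_) (by positivity)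
      fun s u hu => Or.inl (At_sup (nice0 h x) hu)
    · refine ⟨this.1, this.2.trans ?_⟩
      gcongr
      exact le_add_of_nonneg_left (by positivity)
    · rw [mul_assoc]
      refine le_mul_of_one_le_right (sq_nonneg _) ?_
      rw [← exp_log two_pos, ← exp_add, exp_log two_pos]
      exact one_le_exp (by linarith [hs.2])

theorem av_orth {b b' : ℕ} (h : b ≠ b') (x y : E d) : ⟪av ρ b x, av ρ b' y⟫_ℝ = 0 :=
  inner_vec_zero fun ⟨s, u⟩ => by
    by_cases h1 : s ∈ Ib b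
    · rcases lt_or_gt_of_ne h with a | a
      · rw [cut_not (Ib_disj a h1), mul_zero]
      · rw [cut_not (I := Ib b') fun h2 => Ib_disj a h2 h1, mul_zero]
    · rw [cut_not h1, zero_mul]

theorem av_cv {b N : ℕ} (h : b ≤ N) (x y : E d) : ⟪av ρ b x, cv ρ N y⟫_ℝ = 0 :=
  inner_vec_zero fun ⟨s, u⟩ => by
    by_cases h1 : s ∈ Ib b
    · have a : (b : ℝ) ≤ N := by exact_mod_cast h
      have := mul_le_mul_of_nonneg_right a (log_nonneg one_le_two)
      rw [cut_not (I := Ioi _) (not_lt.2 ((Ib_le h1).trans this)), mul_zero]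
    · rw [cut_not h1, zero_mul]

theorem av_far (h : Nice ρ 0 B R) {b : ℕ} {x y : E d} (hx : 2 * (R + 1) * 2 ^ b ≤ dist x y) :
    ⟪av ρ b x, av ρ b y⟫_ℝ = 0 :=
  inner_vec_zero fun ⟨s, u⟩ => by
    by_cases h1 : s ∈ Ib b
    · rw [cut_mem h1, cut_mem h1]
      by_contra hc
      have a1 := At_sup (nice0 h x) (left_ne_zero_of_mul hc)
      have a2 := At_sup (nice0 h y) (right_ne_zero_of_mul hc)
      have a3 := exp_le_exp.2 (Ib_le h1)
      rw [exp_jlog] at a3
      have a4 : (1 : ℝ) ≤ 2 ^ b := one_le_pow₀ one_le_two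
      nlinarith [dist_triangle_right x y u, h.pos]
    · rw [cut_not h1, zero_mul]

theorem exp_neg_jlog (b : ℕ) : exp (-(b * log 2)) = (2 ^ b)⁻¹ := by rw [exp_neg, exp_jlog]

theorem av_lip (hd : 1 ≤ d) (h : Nice ρ 0 B R) (b : ℕ) (x y : E d) :
    ‖av ρ (b + 1) x - av ρ (b + 1) y‖ ^ 2 ≤
      (cT d * (B * (V1 d * R ^ d)) * (dist x y / 2 ^ b)) ^ 2 * (2 * (R + 1) ^ d) := by
  rw [av, av, ← vec_sub (ok_av hd h _ x).1 (ok_av hd h _ y).1, ← cut_sub, div_eq_inv_mul,
    ← exp_neg_jlog]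
  exact (ok_dif h (meas_Ib (b + 1)) (jlog b) (fun s hs => hs.1) x y).2

theorem cv_lip (h : Nice ρ 0 B R) (N : ℕ) (x y : E d) : ‖cv ρ N x - cv ρ N y‖ ^ 2 ≤
    (cT d * (B * (V1 d * R ^ d)) * (dist x y / 2 ^ N)) ^ 2 * (2 * (R + 1) ^ d) := by
  rw [cv, cv, ← vec_sub (ok_dif h measurableSet_Ioi (jlog N) (fun s hs => hs) x 0).1
    (ok_dif h measurableSet_Ioi (jlog N) (fun s hs => hs) y 0).1, ← cut_sub, div_eq_inv_mul,
    ← exp_neg_jlog]
  simp only [sub_sub_sub_cancel_right]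
  exact (ok_dif h measurableSet_Ioi (jlog N) (fun s hs => hs) x y).2

theorem cv_zero (ρ : E d → ℝ) (N : ℕ) : cv ρ N 0 = 0 := by
  rw [cv, ← vec_zero]
  congr 1
  funext p
  simp [cut]

theorem av_iso (hd : 1 ≤ d) (h : Nice ρ 0 B R) (L : E d ≃ₗᵢ[ℝ] E d) (hL : ∀ w, ρ (L w) = ρ w)
    (c c' : E d) (b : ℕ) (x y : E d) :
    ⟪av ρ b (L (x - c) + c'), av ρ b (L (y - c) + c')⟫_ℝ = ⟪av ρ b x, av ρ b y⟫_ℝ := by
  rw [av, av, av, av, inner_vec' (ok_av hd h _ _).1 (ok_av hd h _ _).1,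
    inner_vec' (ok_av hd h _ _).1 (ok_av hd h _ _).1]
  congr 1
  funext s
  congr 1
  rw [← integral_add_right_eq_self _ c', ← int_iso L c]
  simp only [cut, At_iso L hL]

theorem av_rad (hd : 1 ≤ d) (h : Nice ρ 0 B R) (hr : ∀ w w', ‖w‖ = ‖w'‖ → ρ w = ρ w') (b : ℕ)
    {x y x' y' : E d} (e : dist x y = dist x' y') :
    ⟪av ρ b x, av ρ b y⟫_ℝ = ⟪av ρ b x', av ρ b y'⟫_ℝ := by
  let L := Submodule.reflection (ℝ ∙ ((y - x) - (y' - x')))ᗮ
  have hg : L (y - x) = y' - x' := Submodule.reflection_sub (by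
    rwa [← dist_eq_norm, ← dist_eq_norm, dist_comm, dist_comm y'])
  rw [← av_iso hd h L (fun w => hr _ _ (L.norm_map w)) x x' b x y, hg]
  simp

/-- the difference of two translates -/
noncomputable def df (ρ : E d → ℝ) (n : ℕ) (x : E d) : E d → ℝ :=
  (1 : ℝ) • mol ρ n x + (-1 : ℝ) • mol ρ n 0

theorem test_df (h : Test ρ) (n : ℕ) (x : E d) : Test (df ρ n x) :=
  (test_mol h n x).comb (test_mol h n 0) _ _

theorem int_df (h : Test ρ) (n : ℕ) (x : E d) : ∫ u, df ρ n x u = 0 := by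
  rw [df, int_comb (test_mol h n x).int (test_mol h n 0).int, int_mol, int_mol]; ring

theorem At_df (hd : 1 ≤ d) (h : Nice ρ 0 B R) (N : ℕ) (x : E d) : Ok (At (df ρ 0 x)) ∧
    vec (At (df ρ 0 x)) = ∑ b ∈ Finset.range (N + 1), av ρ b x -
      ∑ b ∈ Finset.range (N + 1), av ρ b 0 + cv ρ N x := by
  have s1 := vec_sum (Finset.range (N + 1)) fun b _ => (ok_av hd h b x).1
  have s2 := vec_sum (Finset.range (N + 1)) fun b _ => (ok_av hd h b 0).1
  have s3 := (ok_dif h measurableSet_Ioi (jlog N) (fun s hs => hs) x 0).1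
  have e : At (df ρ 0 x) = fun p => (∑ b ∈ Finset.range (N + 1), cut (Ib b) (At (mol ρ 0 x)) p -
      ∑ b ∈ Finset.range (N + 1), cut (Ib b) (At (mol ρ 0 0)) p) +
      cut (Ioi (N * log 2)) (fun p => At (mol ρ 0 x) p - At (mol ρ 0 0) p) p := by
    rw [df, At_comb (nice0 h x).int (nice0 h 0).int]
    funext ⟨s, u⟩
    rw [sum_cut, sum_cut]
    by_cases a : s ≤ N * log 2
    · rw [cut_mem (mem_Iic.2 a), cut_mem (mem_Iic.2 a), cut_not (I := Ioi _) (not_lt.2 a)]
      ring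
    · rw [cut_not (mt mem_Iic.1 a), cut_not (mt mem_Iic.1 a), cut_mem (mem_Ioi.2 (not_le.1 a))]
      ring
  rw [e]
  exact ⟨(s1.1.sub s2.1).add s3, by
    rw [vec_add (s1.1.sub s2.1) s3, vec_sub s1.1 s2.1, s1.2, s2.2]; rfl⟩

theorem innerT (hd : 2 ≤ d) (hf : Test f) (hg : Test g) (f0 : ∫ x, f x = 0) (g0 : ∫ x, g x = 0)
    (of : Ok (At f)) (og : Ok (At g)) :
    ⟪vec (At f), vec (At g)⟫_ℝ = ⟪vec (Af f), vec (Af g)⟫_ℝ := by
  have hd1 : 1 ≤ d := by omega
  have a1 := energyT hd (hf.comb hg 1 1).nice.choose_spec.choose_spec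
    (by rw [int_comb hf.int hg.int, f0, g0]; simp)
    (by rw [At_comb hf.int hg.int]; exact (of.smul 1).add (og.smul 1))
  rw [vecAf_comb hd1 hf hg f0 g0, At_comb hf.int hg.int, vec_add (of.smul 1) (og.smul 1),
    vec_smul of, vec_smul og, one_smul, one_smul, one_smul, one_smul,
    norm_add_sq_real, norm_add_sq_real, energyT hd hf.nice.choose_spec.choose_spec f0 of,
    energyT hd hg.nice.choose_spec.choose_spec g0 og] at a1
  linarith

theorem inner_shift {F F' : ℝ × E d → ℝ} (h : Ok G) (h' : Ok G') (k : Ok F) (k' : Ok F') (l : ℝ)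
    (e : ∀ s u, G (s, u) = F (s + l, exp l • u)) (e' : ∀ s u, G' (s, u) = F' (s + l, exp l • u)) :
    ⟪vec G, vec G'⟫_ℝ = ⟪vec F, vec F'⟫_ℝ := by
  rw [inner_vec' h h', inner_vec' k k', ← integral_add_right_eq_self
    (fun s => (vb d s)⁻¹ * ∫ u, F (s, u) * F' (s, u)) l]
  congr 1
  funext s
  simp only [e, e']
  rw [Measure.integral_comp_smul volume (fun u => F (s + l, u) * F' (s + l, u)),
    finrank_euclideanSpace_fin, abs_of_pos (by positivity), smul_eq_mul, vb, vb, exp_add, mul_pow]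
  have := V1_pos d
  field_simp

theorem Af_mol (ρ : E d → ℝ) (n : ℕ) (x u : E d) (s : ℝ) : Af (mol ρ n x) (s, u) =
    Af (mol ρ 0 ((2 : ℝ) ^ n • x)) (s + n * log 2, exp (n * log 2) • u) := by
  have h := Measure.integral_comp_smul volume (fun y : E d => mol ρ 0 ((2 : ℝ) ^ n • x) y *
    bi (exp (s + n * log 2)) y (exp (n * log 2) • u)) ((2 : ℝ) ^ n)
  have e : ∀ y : E d, bi (exp (s + n * log 2)) ((2 : ℝ) ^ n • y) (exp (n * log 2) • u) =
      bi (exp s) y u := fun y => by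
    unfold bi
    rw [exp_add, exp_jlog, dist_smul₀, Real.norm_of_nonneg (by positivity), mul_comm]
    simp only [mul_lt_mul_iff_left₀ (show (0 : ℝ) < 2 ^ n by positivity)]
  rw [finrank_euclideanSpace_fin, abs_of_pos (by positivity), smul_eq_mul,
    eq_inv_mul_iff_mul_eq₀ (by positivity), ← integral_const_mul] at h
  unfold Af
  rw [← h]
  congr 1
  funext y
  rw [e, mol_zero, mol, smul_sub, pow_mul, mul_assoc]

theorem inner_df (hd : 2 ≤ d) (h : Test ρ) (n : ℕ) (x y : E d) :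
    ⟪vec (Af (df ρ n x)), vec (Af (df ρ n y))⟫_ℝ =
      ⟪vec (At (df ρ 0 ((2 : ℝ) ^ n • x))), vec (At (df ρ 0 ((2 : ℝ) ^ n • y)))⟫_ℝ := by
  have hd1 : 1 ≤ d := by omega
  obtain ⟨B, R, hn⟩ := h.nice
  have e : ∀ x u s, Af (df ρ n x) (s, u) =
      Af (df ρ 0 ((2 : ℝ) ^ n • x)) (s + n * log 2, exp (n * log 2) • u) := fun x u s => by
    rw [df, df, Af_comb (test_mol h _ _).int (test_mol h _ _).int,
      Af_comb (test_mol h _ _).int (test_mol h _ _).int]
    simp only [Af_mol ρ n, smul_zero]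
  rw [innerT hd (test_df h _ _) (test_df h _ _) (int_df h _ _) (int_df h _ _)
    (At_df hd1 hn 0 _).1 (At_df hd1 hn 0 _).1]
  exact inner_shift ((test_df h _ _).ok hd1 (int_df h _ _)) ((test_df h _ _).ok hd1 (int_df h _ _))
    ((test_df h _ _).ok hd1 (int_df h _ _)) ((test_df h _ _).ok hd1 (int_df h _ _)) _
    (fun s u => e x u s) fun s u => e y u s

end Pool.Agent.GL.BF
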