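import Pool.Agent.Lib.MP_438f30_pr.BF.Band
import Pool.Agent.Lib.MP_438f30_pr.Ps

/-! The band representation of the mollified field in lattice units. -/

namespace Pool.Agent.GL.BF

open MeasureTheory Real Finset Pool.Agent.Lib.MP_a0a493_pr
open scoped InnerProductSpace

theorem gf_congr {Ω H H' J : Type*} [MeasurableSpace Ω] {P : Measure Ω} [NormedAddCommGroup H]
    [InnerProductSpace ℝ H] [NormedAddCommGroup H'] [InnerProductSpace ℝ H'] [Fintype J]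
    {X : J → Ω → ℝ} {v : J → H} {v' : J → H'} (h : GF P X v)
    (hg : ∀ i j, ⟪v i, v j⟫_ℝ = ⟪v' i, v' j⟫_ℝ) : GF P X v' :=
  ⟨h.meas, fun c => by
    rw [h.law, norm_sq_gram, norm_sq_gram]
    simp only [hg]⟩

theorem law_av {Ω : Type*} [MeasurableSpace Ω] {P : Measure Ω} {Φ : (E 2 → ℝ) → Ω → ℝ}
    (hΦ : IsLGF P Φ) {ρ : E 2 → ℝ} (h : Test ρ) (n N : ℕ) {J : Type*} [Fintype J] (v : J → Zd 2) :
    GF P (fun j ω => phi Φ ρ n ω (v j) - phi Φ ρ n ω 0) fun j =>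
      ∑ b ∈ range (N + 1), av ρ b (pt (v j)) - ∑ b ∈ range (N + 1), av ρ b 0 + cv ρ N (pt (v j)) := by
  obtain ⟨B, R, hn⟩ := h.nice
  refine gf_congr (hΦ.gf le_rfl (f := fun j => df ρ n (((2 : ℝ) ^ n)⁻¹ • pt (v j)))
    (fun j => test_df h _ _) (fun j => int_df h _ _) fun j => ?_) fun i j => ?_
  · filter_upwards [hΦ.lin _ _ (test_mol h n (((2 : ℝ) ^ n)⁻¹ • pt (v j))) (test_mol h n 0) 1 (-1)]
      with ω e
    have z : pt (0 : Zd 2) = 0 := by ext i; simp [pt_apply]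
    rw [df, e, phi, phi, ps_pt, ps_pt, z, smul_zero]
    ring
  · rw [inner_df le_rfl h, smul_inv_smul₀ (by positivity), smul_inv_smul₀ (by positivity),
      (At_df one_le_two hn N _).2, (At_df one_le_two hn N _).2]

theorem le_of_sq {x y K : ℝ} (hy : 0 ≤ y) (h : x ^ 2 ≤ y ^ 2 * K) : x ≤ √K * y := by
  rw [← sqrt_sq hy, ← sqrt_mul' _ (sq_nonneg y), mul_comm]
  exact le_sqrt_of_sq_le h

/-- bands with finite range, bounded norm, Lipschitz dependence and isotropic Gram matrix -/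
theorem bf (ρ : E 2 → ℝ) (h : Test ρ) (hr : ∀ w w', ‖w‖ = ‖w'‖ → ρ w = ρ w') :
    ∃ (C : ℝ) (a c : ℕ → E 2 → HH 2), 1 ≤ C ∧
      (∀ b b' x y, b ≠ b' → ⟪a b x, a b' y⟫_ℝ = 0) ∧
      (∀ b x y, C * 2 ^ b ≤ dist x y → ⟪a b x, a b y⟫_ℝ = 0) ∧
      (∀ b x, ‖a b x‖ ≤ C) ∧
      (∀ b x y, 1 ≤ b → ‖a b x - a b y‖ ≤ C * dist x y / 2 ^ b) ∧
      (∀ b x y x' y', dist x y = dist x' y' → ⟪a b x, a b y⟫_ℝ = ⟪a b x', a b y'⟫_ℝ) ∧
      (∀ N x y, ‖c N x - c N y‖ ≤ C * dist x y / 2 ^ N) ∧ (∀ N, c N 0 = 0) ∧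
      (∀ b N x y, b ≤ N → ⟪a b x, c N y⟫_ℝ = 0) ∧
      ∀ (Ω : Type) [MeasurableSpace Ω] (P : Measure Ω) (Φ : (E 2 → ℝ) → Ω → ℝ), IsLGF P Φ →
        ∀ (n N : ℕ) (J : Type) [Fintype J] (v : J → Zd 2),
          GF P (fun j ω => phi Φ ρ n ω (v j) - phi Φ ρ n ω 0) fun j =>
            ∑ b ∈ range (N + 1), a b (pt (v j)) - ∑ b ∈ range (N + 1), a b 0 + c N (pt (v j)) := by
  obtain ⟨B, R, hn⟩ := h.nice
  have hR := hn.pos
  have hB := hn.nonneg
  have hV := V1_pos 2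
  have hc := cT_pos 2
  set M := cT 2 * (B * (V1 2 * R ^ 2)) with hM
  have M0 : 0 ≤ M := by positivity
  set K := √(2 * (R + 1) ^ 2) * M with hK
  set K' := √(((cT 2 * B * V1 2) ^ 2 + M ^ 2 * 2) * (2 * (R + 1) ^ 2)) with hK'
  have K0 : 0 ≤ K := by positivity
  have K1 : 0 ≤ K' := by positivity
  refine ⟨2 * (R + 1) + 2 * K + K', av ρ, cv ρ, by linarith, fun b b' x y hb => av_orth hb x y,
    fun b x y hx => av_far hn (le_trans (by gcongr; linarith) hx), fun b x => ?_,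
    fun b x y hb => ?_, fun b x y x' y' e => av_rad one_le_two hn hr b e, fun N x y => ?_,
    cv_zero ρ, fun b N x y hb => av_cv hb x y, fun Ω _ P Φ hΦ n N J _ v => law_av hΦ h n N v⟩
  · exact (le_sqrt_of_sq_le (ok_av one_le_two hn b x).2).trans (by linarith)
  · obtain ⟨b, rfl⟩ : ∃ c, b = c + 1 := ⟨b - 1, by omega⟩
    refine (le_of_sq (by positivity) (av_lip one_le_two hn b x y)).trans ?_
    calc _ = 2 * K * dist x y / 2 ^ (b + 1) := by rw [hK, ← hM, pow_succ 2 b]; field_simp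
      _ ≤ _ := by gcongr; linarith
  · refine (le_of_sq (by positivity) (cv_lip hn N x y)).trans ?_
    calc _ = K * dist x y / 2 ^ N := by rw [hK]; ring
      _ ≤ _ := by gcongr; linarith

end Pool.Agent.GL.BF
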