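import Pool.Agent.Lib.MP_a0a493_pr.SMoll

/-! A compactly supported Lipschitz kernel and its logarithmic energy identity. -/

namespace Pool.Agent.GL.BF

open MeasureTheory Metric Real Set Pool.Agent.Lib.MP_a0a493_pr
open scoped InnerProductSpace

variable {d : ℕ} {f g : E d → ℝ} {z : E d} {B R : ℝ}

/-- the tent function -/
noncomputable def tent (w : E d) : ℝ := max 0 (1 - ‖w‖)

theorem tent_nonneg (w : E d) : 0 ≤ tent w := le_max_left _ _

theorem tent_le_one (w : E d) : tent w ≤ 1 := max_le zero_le_one (by linarith [norm_nonneg w])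

theorem abs_tent (w : E d) : |tent w| ≤ 1 := by
  rw [abs_of_nonneg (tent_nonneg w)]; exact tent_le_one w

theorem tent_zero {w : E d} (h : 1 ≤ ‖w‖) : tent w = 0 := max_eq_left (by linarith)

theorem tent_lip (w w' : E d) : |tent w - tent w'| ≤ ‖w - w'‖ := by
  have a := abs_le.1 (abs_norm_sub_norm_le w w')
  have b := norm_nonneg (w - w')
  unfold tent
  rw [abs_le]
  rcases le_total 0 (1 - ‖w‖) with h | h <;> rcases le_total 0 (1 - ‖w'‖) with h' | h' <;>
    simp only [max_eq_left, max_eq_right, h, h'] <;> constructor <;> linarith [a.1, a.2]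

@[fun_prop] theorem continuous_tent : Continuous (tent : E d → ℝ) := by unfold tent; fun_prop

theorem tent_radial {w w' : E d} (h : ‖w‖ = ‖w'‖) : tent w = tent w' := by rw [tent, tent, h]

theorem tent_le_bi (w : E d) : tent w ≤ bi 1 0 w := by
  rcases lt_or_ge ‖w‖ 1 with h | h
  · rw [bi_one (by rwa [dist_zero_left])]; exact tent_le_one w
  · rw [tent_zero h]; exact bi_nonneg _ _ _

theorem int_tent : Integrable (tent : E d → ℝ) :=
  (integrable_bi 1 0).mono' continuous_tent.aestronglyMeasurable
    (Filter.Eventually.of_forall fun w => by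
      rw [Real.norm_of_nonneg (tent_nonneg w)]; exact tent_le_bi w)

theorem int_tent_le : ∫ w : E d, tent w ≤ V1 d := by
  have := integral_mono int_tent (integrable_bi 1 (0 : E d)) tent_le_bi
  rwa [integral_bi one_pos, one_pow, mul_one] at this

theorem int_tent_mul (w : E d) : Integrable fun u => tent u * tent (u - w) :=
  int_tent.mul_bdd (c := 1) (by fun_prop : Continuous _).aestronglyMeasurable
    (Filter.Eventually.of_forall fun _ => abs_tent _)

/-- the square integral of the tent -/
noncomputable def k0 (d : ℕ) : ℝ := ∫ u : E d, tent u * tent (u - 0)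

theorem k0_pos (d : ℕ) : 0 < k0 d :=
  (by fun_prop : Continuous fun u : E d => tent u * tent (u - 0)).integral_pos_of_hasCompactSupport_nonneg_nonzero
    (.intro (isCompact_closedBall (0 : E d) 1) fun u hu => by
      rw [tent_zero (by simpa using (not_le.1 (mt mem_closedBall_zero_iff.2 hu)).le), zero_mul])
    (fun _ => mul_nonneg (tent_nonneg _) (tent_nonneg _)) (x := 0) (by simp [tent])

/-- the normalised covariance kernel -/
noncomputable def Kt (w : E d) : ℝ := (∫ u, tent u * tent (u - w)) / k0 d

theorem Kt_zero {w : E d} (h : 2 ≤ ‖w‖) : Kt w = 0 := by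
  rw [Kt, div_eq_zero_iff]
  refine Or.inl (integral_eq_zero_of_ae (Filter.Eventually.of_forall fun u => ?_))
  rcases le_or_gt 1 ‖u‖ with a | a
  · simp [tent_zero a]
  · have b := norm_sub_norm_le w u
    rw [norm_sub_rev] at b
    simp [tent_zero (show 1 ≤ ‖u - w‖ by linarith)]

theorem one_sub_Kt (w : E d) : |Kt w - 1| ≤ V1 d / k0 d * ‖w‖ := by
  have h := k0_pos d
  have e : Kt w - 1 = (∫ u, tent u * (tent (u - w) - tent (u - 0))) / k0 d := by
    simp only [mul_sub]
    rw [integral_sub (int_tent_mul w) (int_tent_mul 0), Kt, sub_div, ← k0, div_self h.ne']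
  rw [e, abs_div, abs_of_pos h, div_mul_eq_mul_div]
  refine div_le_div_of_nonneg_right ?_ h.le
  refine (norm_integral_le_of_norm_le (f := fun u => tent u * (tent (u - w) - tent (u - 0)))
    (int_tent.mul_const ‖w‖) (Filter.Eventually.of_forall fun u => ?_)).trans ?_
  · rw [Real.norm_eq_abs, abs_mul, abs_of_nonneg (tent_nonneg u)]
    refine mul_le_mul_of_nonneg_left ((tent_lip _ _).trans_eq ?_) (tent_nonneg u)
    simp
  · rw [integral_mul_const]
    exact mul_le_mul_of_nonneg_right int_tent_le (norm_nonneg _)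

theorem abs_Kt (w : E d) : |Kt w| ≤ 1 + 2 * (V1 d / k0 d) := by
  have h := div_pos (V1_pos d) (k0_pos d)
  rcases le_or_gt 2 ‖w‖ with a | a
  · rw [Kt_zero a, abs_zero]; positivity
  · have b := abs_le.1 (one_sub_Kt w)
    rw [abs_le]
    constructor <;> nlinarith [b.1, b.2]

theorem Kt_radial {w w' : E d} (h : ‖w‖ = ‖w'‖) : Kt w = Kt w' := by
  let g := Submodule.reflection (ℝ ∙ (w - w'))ᗮ
  have hg : g w = w' := Submodule.reflection_sub h
  unfold Kt
  rw [← g.measurePreserving.integral_comp g.toHomeomorph.measurableEmbedding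
    (fun u => tent u * tent (u - w'))]
  congr 2
  funext u
  rw [← hg, ← map_sub, tent_radial (g.norm_map u), tent_radial (g.norm_map (u - w))]

theorem measurable_Kt : Measurable (Kt : E d → ℝ) :=
  ((by fun_prop : Measurable fun p : E d × E d => tent p.2 * tent (p.2 - p.1)).stronglyMeasurable
    |>.integral_prod_right').measurable.div_const _

/-- the tent at scale `exp s` -/
noncomputable def tk (s : ℝ) (y u : E d) : ℝ := tent (exp (-s) • (u - y))

@[fun_prop] theorem measurable_tk {X : Type*} [MeasurableSpace X] {s : X → ℝ} {x u : X → E d}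
    (hs : Measurable s) (hx : Measurable x) (hu : Measurable u) :
    Measurable fun t => tk (s t) (x t) (u t) := by
  unfold tk
  exact continuous_tent.measurable.comp (by fun_prop)

theorem tk_nonneg (s : ℝ) (y u : E d) : 0 ≤ tk s y u := tent_nonneg _

theorem abs_tk (s : ℝ) (y u : E d) : |tk s y u| ≤ 1 := abs_tent _

theorem tk_zero {s : ℝ} {y u : E d} (h : exp s ≤ dist y u) : tk s y u = 0 := by
  refine tent_zero ?_
  rwa [norm_smul, Real.norm_of_nonneg (exp_pos _).le, exp_neg, ← dist_eq_norm, dist_comm,
    le_inv_mul_iff₀ (exp_pos s), mul_one]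

theorem tk_le_bi (s : ℝ) (y u : E d) : tk s y u ≤ bi (exp s) y u := by
  rcases lt_or_ge (dist y u) (exp s) with h | h
  · rw [bi_one h]; exact tent_le_one _
  · rw [tk_zero h]; exact bi_nonneg _ _ _

theorem tk_lip (s : ℝ) (y y' u u' : E d) :
    |tk s y u - tk s y' u'| ≤ exp (-s) * ‖u - y - (u' - y')‖ := by
  refine (tent_lip _ _).trans_eq ?_
  rw [← smul_sub, norm_smul, Real.norm_of_nonneg (exp_pos _).le]

theorem int_tk (s : ℝ) (y : E d) : Integrable (tk s y) :=
  (integrable_bi (exp s) y).mono' (by fun_prop : Measurable _).aestronglyMeasurable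
    (Filter.Eventually.of_forall fun w => by
      rw [Real.norm_of_nonneg (tk_nonneg _ _ _)]; exact tk_le_bi s y w)

theorem int_tk_mul (s : ℝ) (x y : E d) : Integrable fun u => tk s x u * tk s y u :=
  (int_tk s x).mul_bdd (c := 1) (by fun_prop : Measurable _).aestronglyMeasurable
    (Filter.Eventually.of_forall fun _ => abs_tk _ _ _)

theorem integral_tk_mul (s : ℝ) (x y : E d) :
    ∫ u, tk s x u * tk s y u = exp s ^ d * (k0 d * Kt (exp (-s) • (y - x))) := by
  have hr := exp_pos s
  have h := Measure.integral_comp_smul volume (fun u : E d => tk s x (x + u) * tk s y (x + u))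
    (exp s)
  rw [integral_add_left_eq_self (fun u : E d => tk s x u * tk s y u) x,
    finrank_euclideanSpace_fin, abs_of_pos (by positivity), smul_eq_mul] at h
  have e1 : ∀ u, tk s x (x + exp s • u) = tent u := fun u => by
    rw [tk, add_sub_cancel_left, smul_smul, ← exp_add, neg_add_cancel, exp_zero, one_smul]
  have e2 : ∀ u, tk s y (x + exp s • u) = tent (u - exp (-s) • (y - x)) := fun u => by
    rw [tk, show x + exp s • u - y = exp s • u - (y - x) by abel, smul_sub, smul_smul, ← exp_add,
      neg_add_cancel, exp_zero, one_smul]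
  simp only [e1, e2] at h
  rw [Kt, h]
  have := (k0_pos d).ne'
  field_simp

/-- the normalising constant -/
noncomputable def cT (d : ℕ) : ℝ := √(V1 d / k0 d)

theorem cT_pos (d : ℕ) : 0 < cT d := sqrt_pos.2 (div_pos (V1_pos d) (k0_pos d))

/-- tent averages of a function -/
noncomputable def At (f : E d → ℝ) (p : ℝ × E d) : ℝ := cT d * ∫ y, f y * tk p.1 y p.2

theorem measurable_At (hf : Measurable f) : Measurable (At f) :=
  ((by fun_prop : Measurable fun q : (ℝ × E d) × E d =>
    f q.2 * tk q.1.1 q.2 q.1.2).stronglyMeasurable.integral_prod_right').measurable.const_mul _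

theorem int_mul_tk (hf : Integrable f) (s : ℝ) (u : E d) : Integrable fun y => f y * tk s y u :=
  hf.mul_bdd (c := 1) (by fun_prop : Measurable _).aestronglyMeasurable
    (Filter.Eventually.of_forall fun y => abs_tk s y u)

theorem At_comb (h : Integrable f) (h' : Integrable g) (a b : ℝ) :
    At (a • f + b • g) = fun p => a * At f p + b * At g p := by
  funext p
  simp only [At, Pi.add_apply, Pi.smul_apply, smul_eq_mul, add_mul, mul_assoc]
  rw [integral_add ((int_mul_tk h _ _).const_mul a) ((int_mul_tk h' _ _).const_mul b),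
    integral_const_mul, integral_const_mul]
  ring

theorem At_sq (h : Nice f z B R) (s : ℝ) : (vb d s)⁻¹ * ∫ u, At f (s, u) * At f (s, u) =
    ∫ q : E d × E d, f q.1 * f q.2 * Kt (exp (-s) • (q.2 - q.1)) ∂volume.prod volume := by
  have hv := vb_pos d s
  have hf := h.meas
  have e : ∀ q : E d × E d, ∫ u, f q.1 * tk s q.1 u * (f q.2 * tk s q.2 u) =
      exp s ^ d * k0 d * (f q.1 * f q.2 * Kt (exp (-s) • (q.2 - q.1))) := fun q => by
    simp only [mul_mul_mul_comm (f q.1)]
    rw [integral_const_mul, integral_tk_mul]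
    ring
  have m : AEStronglyMeasurable (fun p : (E d × E d) × E d =>
      f p.1.1 * tk s p.1.1 p.2 * (f p.1.2 * tk s p.1.2 p.2))
      ((volume.prod volume).prod volume) := (by fun_prop : Measurable _).aestronglyMeasurable
  have i := (integrable_prod_iff m).2 ⟨Filter.Eventually.of_forall fun q => by
      simp only [mul_mul_mul_comm (f q.1)]
      exact (int_tk_mul _ _ _).const_mul _,
    ((h.int.abs.mul_prod h.int.abs).mul_const (vb d s)).mono' m.norm.integral_prod_right'
      (Filter.Eventually.of_forall fun q => by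
        rw [Real.norm_of_nonneg (integral_nonneg fun _ => norm_nonneg _), vb,
          ← integral_bi (exp_pos s) q.1, ← integral_const_mul]
        refine integral_mono_of_nonneg (Filter.Eventually.of_forall fun _ => norm_nonneg _)
          ((integrable_bi _ _).const_mul _) (Filter.Eventually.of_forall fun u => ?_)
        simp only [Real.norm_eq_abs, abs_mul]
        rw [mul_mul_mul_comm]
        refine mul_le_mul_of_nonneg_left ((mul_le_of_le_one_right (abs_nonneg _)
          (abs_tk _ _ _)).trans ?_) (by positivity)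
        rw [abs_of_nonneg (tk_nonneg _ _ _)]
        exact tk_le_bi _ _ _)⟩
  have e2 : ∀ u, At f (s, u) * At f (s, u) = V1 d / k0 d * ∫ q : E d × E d,
      f q.1 * tk s q.1 u * (f q.2 * tk s q.2 u) ∂volume.prod volume := fun u => by
    rw [integral_prod_mul (fun y => f y * tk s y u) fun y => f y * tk s y u, At,
      mul_mul_mul_comm, cT, mul_self_sqrt (div_pos (V1_pos d) (k0_pos d)).le]
  simp only [e2]
  rw [integral_const_mul, ← integral_integral_swap i]
  simp only [e]
  rw [integral_const_mul, vb]
  have := k0_pos d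
  have := V1_pos d
  field_simp

/-- the regularised kernel -/
noncomputable def Dt (w : E d) (s : ℝ) : ℝ := Kt (exp (-s) • w) - if 0 < s then 1 else 0

theorem int_Dt {e : E d} (he : ‖e‖ = 1) : Integrable (Dt e) := by
  have hM := div_pos (V1_pos d) (k0_pos d)
  set M := V1 d / k0 d
  have i1 : Integrable ((Ioi (-1 : ℝ)).indicator fun s => (1 + M) * exp (-s)) :=
    (integrable_indicator_iff measurableSet_Ioi).2 ((integrableOn_exp_neg_Ioi _).const_mul _)
  refine i1.mono' ((measurable_Kt.comp (by fun_prop)).sub (Measurable.ite measurableSet_Ioi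
    measurable_const measurable_const)).aestronglyMeasurable (Filter.Eventually.of_forall fun s => ?_)
  have hn : ‖exp (-s) • e‖ = exp (-s) := by
    rw [norm_smul, he, mul_one, Real.norm_of_nonneg (exp_pos _).le]
  have c := abs_le.1 (one_sub_Kt (exp (-s) • e))
  rw [hn] at c
  rw [Real.norm_eq_abs, Dt]
  by_cases h : -1 < s
  · rw [indicator_of_mem (mem_Ioi.2 h), abs_le]
    split_ifs with h1
    · constructor <;> nlinarith [exp_pos (-s), c.1, c.2]
    · have := one_le_exp (show 0 ≤ -s by linarith)
      constructor <;> nlinarith [c.1, c.2]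
  · rw [indicator_of_notMem (show s ∉ Ioi (-1 : ℝ) from h), if_neg (by linarith),
      Kt_zero (by rw [hn]; linarith [add_one_le_exp (-s)])]
    simp

theorem Dt_facts (hd : 1 ≤ d) : ∃ c0 c1 : ℝ, ∀ w : E d, w ≠ 0 → Integrable (Dt w) ∧
    ∫ s, Dt w s = c0 - log ‖w‖ ∧ ∫ s, ‖Dt w s‖ ≤ c1 + |log ‖w‖| := by
  let e : E d := EuclideanSpace.single ⟨0, hd⟩ 1
  have he : ‖e‖ = 1 := by simp [e]
  have i := int_Dt he
  refine ⟨∫ s, Dt e s, ∫ s, ‖Dt e s‖, fun w hw => ?_⟩
  have hw' : 0 < ‖w‖ := norm_pos_iff.2 hw
  have e1 : Dt w = fun s => Dt e (s - log ‖w‖) +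
      ((if 0 < s - log ‖w‖ then 1 else 0) - if 0 < s then 1 else 0 : ℝ) := by
    funext s
    rw [Dt, Dt, Kt_radial (w' := exp (-(s - log ‖w‖)) • e)]
    · ring
    · rw [norm_smul, norm_smul, he, Real.norm_of_nonneg (exp_pos _).le,
        Real.norm_of_nonneg (exp_pos _).le, neg_sub, sub_eq_add_neg, exp_add, exp_log hw']
      ring
  obtain ⟨j1, j2, j3⟩ := int_step (log ‖w‖)
  have i2 := i.comp_sub_right (log ‖w‖)
  rw [e1]
  refine ⟨i2.add j1, ?_, ?_⟩
  · rw [integral_add i2 j1, j2, integral_sub_right_eq_self (Dt e)]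
    ring
  · rw [← j3, ← integral_sub_right_eq_self (fun s => ‖Dt e s‖) (log ‖w‖),
      ← integral_add i2.norm j1.norm]
    exact integral_mono (i2.add j1).norm (i2.norm.add j1.norm) fun s => norm_add_le _ _

theorem energyT (hd : 2 ≤ d) (h : Nice f z B R) (h0 : ∫ y, f y = 0) (ho : Ok (At f)) :
    ‖vec (At f)‖ ^ 2 = ‖vec (Af f)‖ ^ 2 := by
  have hd1 : 1 ≤ d := by omega
  have hf := h.meas
  obtain ⟨c0, c1, hc⟩ := Dt_facts hd1
  have i0 := h.int.mul_prod h.int
  have z0 : ∫ q : E d × E d, f q.1 * f q.2 ∂volume.prod volume = 0 := by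
    rw [integral_prod_mul, h0, mul_zero]
  have il := int_log hd h
  have : Nontrivial (E d) := Module.nontrivial_of_finrank_pos (R := ℝ)
    (by rw [finrank_euclideanSpace_fin]; omega)
  have ne : ∀ᵐ q : E d × E d ∂volume.prod volume, q.2 - q.1 ≠ 0 :=
    (Measure.ae_prod_iff_ae_ae ((measurableSet_eq_fun (by fun_prop) measurable_const).compl)).2
      (Filter.Eventually.of_forall fun x => (volume.ae_ne x).mono fun y hy => sub_ne_zero.2 hy)
  have m : AEStronglyMeasurable (fun p : (E d × E d) × ℝ =>
      f p.1.1 * f p.1.2 * Dt (p.1.2 - p.1.1) p.2) ((volume.prod volume).prod volume) :=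
    (Measurable.mul (by fun_prop) ((measurable_Kt.comp (by fun_prop)).sub (Measurable.ite
      (measurable_snd measurableSet_Ioi) measurable_const measurable_const))).aestronglyMeasurable
  have i := (integrable_prod_iff m).2 ⟨ne.mono fun q hq => (hc _ hq).1.const_mul (f q.1 * f q.2),
    ((i0.abs.mul_const c1).add il.abs).mono' m.norm.integral_prod_right' (ne.mono fun q hq => by
      rw [Real.norm_of_nonneg (integral_nonneg fun _ => norm_nonneg _)]
      simp only [norm_mul (f q.1 * f q.2), Pi.add_apply]
      rw [integral_const_mul, abs_mul (f q.1 * f q.2), ← mul_add]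
      exact mul_le_mul_of_nonneg_left (hc _ hq).2.2 (abs_nonneg _))⟩
  have e1 : ∀ s, ∫ q : E d × E d, f q.1 * f q.2 * Kt (exp (-s) • (q.2 - q.1)) ∂volume.prod volume =
      ∫ q : E d × E d, f q.1 * f q.2 * Dt (q.2 - q.1) s ∂volume.prod volume := fun s => by
    simp only [Dt, mul_sub]
    rw [integral_sub (i0.mul_bdd (c := 1 + 2 * (V1 d / k0 d))
      (g := fun q => Kt (exp (-s) • (q.2 - q.1)))
      (measurable_Kt.comp (by fun_prop)).aestronglyMeasurable
      (Filter.Eventually.of_forall fun q => abs_Kt _)) (i0.mul_const _),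
      integral_mul_const, z0, zero_mul, sub_zero]
  rw [energy hd h h0, ← real_inner_self_eq_norm_sq, inner_vec' ho ho]
  simp only [At_sq h, e1]
  rw [← integral_integral_swap i]
  calc _ = ∫ q : E d × E d, f q.1 * f q.2 * c0 - f q.1 * f q.2 * log ‖q.2 - q.1‖
        ∂volume.prod volume := integral_congr_ae (ne.mono fun q hq => by
          simp only []
          rw [integral_const_mul, (hc _ hq).2.1, mul_sub])
    _ = -∫ x, ∫ y, f x * f y * log ‖y - x‖ := by
        rw [integral_sub (i0.mul_const _) il, integral_mul_const, z0, zero_mul, zero_sub,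
          integral_prod _ il]
    _ = _ := by
        simp only [one_div, log_inv, mul_neg, integral_neg, norm_sub_rev]

end Pool.Agent.GL.BF
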